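import Pool.Agent.Q158.Col.Rec

/-! Coalescing pairs in every interval. -/

set_option autoImplicit false

namespace Pool.Agent.Q158.Col

open Finset
open Pool.Agent.H319R2 (beta beta_lt)
open Pool.Agent.TH930
open Pool.Agent.TH930.EBQ (T ones wd cw)

/-- `x` and `y` coalesce after the same number `i ≤ t` of steps, among them the same number of odd
ones -/
def Coal (t : ℕ) (x y : ℤ) : Prop :=
  ∃ i ≤ t, (T 1)^[i] x = (T 1)^[i] y ∧ ones (wd 1 i x) = ones (wd 1 i y)

/-- the bound for the sets without coalescing pairs -/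
def BC (K : ℕ) (W : ℕ) (N : ℝ) : Prop :=
  ∀ (u : ℤ) (F : Finset ℤ), (∀ x ∈ F, |x - u| ≤ 2 ^ W) →
    (∀ x ∈ F, ∀ y ∈ F, x ≠ y → ¬ Coal (K * W) x y) → (F.card : ℝ) ≤ N

theorem BC_rec {K W q n : ℕ} (hqW : q ≤ W) (hn : n ≤ 2 * W) (hK : 2 * W ≤ K * (q - 1))
    (hsm : (1 : ℤ) + 8 * W ≤ 2 ^ (W - q)) {N E : ℝ} (hN : BC K (W - q + 1) N)
    (hE : ∀ (u : ℤ) (F : Finset ℤ), (∀ x ∈ F, |x - u| ≤ 2 ^ W ∧
      ∀ j ≤ n, 2 ^ j ≤ 2 ^ q * 3 ^ ones (wd 1 j x)) → (F.card : ℝ) ≤ E) :
    BC K W ((2 * W + 1) ^ 2 * (N + 2 * W) + 1 * E) := by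
  classical
  intro u F hF hco
  have hKW : K * (q - 1) + K * (W - q + 1) = K * W ∨ q = 0 := by
    rcases Nat.eq_zero_or_pos q with h | h
    · exact Or.inr h
    · left
      rw [← Nat.mul_add]
      congr 1
      omega
  set P : ℤ → Prop := fun x => ∀ j ≤ n, 2 ^ j ≤ 2 ^ q * 3 ^ ones (wd 1 j x) with hP
  set F2 := F.filter P with hF2
  set F1 := F.filter (fun x => ¬ P x) with hF1
  have hsplit : (F.card : ℝ) = F2.card + F1.card := by
    rw [hF1, hF2]; exact_mod_cast (card_filter_add_card_filter_not (s := F) P).symm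
  have hc2 : (F2.card : ℝ) ≤ E := by
    apply hE u
    intro x hx
    rw [hF2, mem_filter] at hx
    exact ⟨hF x hx.1, hx.2⟩
  set G : ℕ × ℕ → Finset ℤ := fun p => F.filter (fun x => ones (wd 1 p.1 x) = p.2 ∧
    2 ^ q * 3 ^ p.2 < 2 ^ p.1 ∧ cw (wd 1 p.1 x) ≤ 4 * p.1 * 2 ^ p.1) with hG
  have hsub : F1 ⊆ (range (2 * W + 1) ×ˢ range (2 * W + 1)).biUnion G := by
    intro x hx
    rw [hF1, mem_filter] at hx
    obtain ⟨hxF, hxP⟩ := hx
    obtain ⟨j, hj, h1, h2⟩ := first_fail (Nat.one_le_two_pow) hxP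
    rw [mem_biUnion]
    refine ⟨(j, ones (wd 1 j x)), ?_, ?_⟩
    · rw [mem_product, mem_range, mem_range]
      have := EBQ.ones_le_length (wd 1 j x)
      rw [EBQ.wd_length] at this
      simp only
      omega
    · rw [hG]
      simp only [mem_filter]
      exact ⟨hxF, trivial, h1, h2⟩
  have hcG : ∀ p ∈ range (2 * W + 1) ×ˢ range (2 * W + 1), ((G p).card : ℝ) ≤ N + 2 * W := by
    rintro ⟨j, o⟩ hp
    rw [mem_product, mem_range, mem_range] at hp
    simp only at hp
    set Gp := G (j, o) with hGp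
    have hmem : ∀ x ∈ Gp, x ∈ F ∧ ones (wd 1 j x) = o ∧ 2 ^ q * 3 ^ o < 2 ^ j ∧
        cw (wd 1 j x) ≤ 4 * j * 2 ^ j := by
      intro x hx
      rw [hGp, hG] at hx
      simp only [mem_filter] at hx
      exact hx
    have hq1 : K * (q - 1) ≤ K * W := Nat.mul_le_mul_left K (by omega)
    have hio : Set.InjOn ((T 1)^[j]) (Gp : Finset ℤ) := by
      intro x hx y hy hxy
      by_contra hne
      have h1 := hmem x hx
      have h2 := hmem y hy
      exact hco x h1.1 y h2.1 hne ⟨j, by omega, hxy, by rw [h1.2.1, h2.2.1]⟩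
    have h6 : (Gp.card : ℝ) ≤ N := by
      rw [← card_image_of_injOn hio]
      apply hN ((3 ^ o * u) / 2 ^ j)
      · intro y hy
        rw [mem_image] at hy
        obtain ⟨x, hx, rfl⟩ := hy
        obtain ⟨a1, a2, a3, a4⟩ := hmem x hx
        have h7 := image_short (k := 1) odd_one (W := W) hqW (x := x) (u := u)
          (by rw [abs_one, one_mul]; exact hF x a1) a2 a3 a4 (by
            refine le_trans ?_ hsm
            have h7 : (j : ℤ) ≤ 2 * W := by
              have : j ≤ 2 * W := by omega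
              exact_mod_cast this
            linarith)
        rwa [abs_one, one_mul] at h7
      · intro x' hx' y' hy' hne
        rw [mem_image] at hx' hy'
        obtain ⟨x, hx, rfl⟩ := hx'
        obtain ⟨y, hy, rfl⟩ := hy'
        rintro ⟨i, hi, h1, h2⟩
        have h3 := hmem x hx
        have h4 := hmem y hy
        have hxy : x ≠ y := fun h => hne (by rw [h])
        refine hco x h3.1 y h4.1 hxy ⟨j + i, ?_, ?_, ?_⟩
        · rcases hKW with h | h
          · omega
          · have hW0 : W = 0 := by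
              rw [h] at hK
              simpa using hK
            have e : K * (W - q + 1) ≤ K * W + K := by
              rw [hW0, h]; simp
            exfalso
            rw [hW0, h] at hsm
            have hj0 : j = 0 := by omega
            have h5 := h3.2.2.1
            rw [hj0, h] at h5
            simp at h5
        · rw [Nat.add_comm, Function.iterate_add_apply, Function.iterate_add_apply]
          exact h1
        · rw [EBQ.wd_append, EBQ.wd_append, EBQ.ones_append, EBQ.ones_append, h3.2.1, h4.2.1, h2]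
    have hW0 : (0 : ℝ) ≤ W := Nat.cast_nonneg W
    linarith
  have hc1 : (F1.card : ℝ) ≤ (2 * W + 1) ^ 2 * (N + 2 * W) := by
    have h1 : (F1.card : ℝ) ≤ ∑ p ∈ range (2 * W + 1) ×ˢ range (2 * W + 1), ((G p).card : ℝ) := by
      exact_mod_cast (card_le_card hsub).trans card_biUnion_le
    refine (h1.trans (sum_le_card_nsmul _ _ _ hcG)).trans (le_of_eq ?_)
    rw [card_product, card_range, nsmul_eq_mul]
    push_cast
    ring
  rw [hsplit]
  linarith

theorem BC_triv (K W : ℕ) {σ : ℝ} (hσ : 1 ≤ σ) : BC K W (3 * (σ * 2 ^ W)) := by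
  intro u F hF _
  have h2 : F ⊆ Icc (u - (2 : ℤ) ^ W) (u + 2 ^ W) := by
    intro x hx
    rw [mem_Icc]
    have := abs_le.1 (hF x hx)
    constructor <;> linarith [this.1, this.2]
  have h3 := card_le_card h2
  rw [Int.card_Icc] at h3
  have hpos : (1 : ℤ) ≤ 2 ^ W := one_le_pow₀ (by norm_num)
  have h4 : ((u + (2 : ℤ) ^ W + 1 - (u - 2 ^ W)).toNat : ℤ) ≤ 3 * (2 ^ W) := by
    rw [Int.toNat_of_nonneg (by linarith)]
    linarith
  have h5 : (F.card : ℤ) ≤ 3 * (2 ^ W) := le_trans (by exact_mod_cast h3) h4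
  have h6 : (F.card : ℝ) ≤ 3 * 2 ^ W := by exact_mod_cast h5
  have h7 : (2 : ℝ) ^ W ≤ σ * 2 ^ W := le_mul_of_one_le_left (by positivity) hσ
  linarith

theorem BC_mono (K W : ℕ) (N N' : ℝ) (h : N ≤ N') (hB : BC K W N) : BC K W N' :=
  fun u F h1 h2 => (hB u F h1 h2).trans h

end Pool.Agent.Q158.Col
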