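import Pool.Agent.Q158.Col.Pat

/-! Coalescing pairs in every interval, and the words of the invariant functions. -/

set_option autoImplicit false

namespace Pool.Agent.Q158.Col

open Finset
open Pool.Agent.H319R2 (beta beta_lt)
open Pool.Agent.TH930
open Pool.Agent.TH930.EBQ (T ones wd cw)

/-- the Collatz map on the integers -/
def C (x : ℤ) : ℤ := if x % 2 = 0 then x / 2 else 3 * x + 1

theorem T_even {x : ℤ} (h : x % 2 = 0) : T 1 x = C x := by
  unfold T C
  rw [if_pos h, if_pos h]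

theorem T_odd {x : ℤ} (h : x % 2 = 1) : T 1 x = C (C x) := by
  have e3 : C x = 3 * x + 1 := by unfold C; rw [if_neg (by omega)]
  rw [e3]
  unfold T C
  rw [if_neg (by omega), if_pos (by omega)]

theorem T_iter (i : ℕ) (x : ℤ) : (T 1)^[i] x = C^[i + ones (wd 1 i x)] x := by
  induction i generalizing x with
  | zero => rfl
  | succ i ih =>
    rw [Function.iterate_succ_apply, ih]
    rcases Int.emod_two_eq_zero_or_one x with h | h
    · have e : ones (wd 1 (i + 1) x) = ones (wd 1 i (T 1 x)) := by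
        simp only [wd]
        rw [show decide (x % 2 = 1) = false by simp [h], EBQ.ones_cons_false]
      rw [e, show i + 1 + ones (wd 1 i (T 1 x)) = (i + ones (wd 1 i (T 1 x))) + 1 by ring,
        Function.iterate_succ_apply, T_even h]
    · have e : ones (wd 1 (i + 1) x) = ones (wd 1 i (T 1 x)) + 1 := by
        simp only [wd]
        rw [show decide (x % 2 = 1) = true by simp [h], EBQ.ones_cons_true]
      rw [e, show i + 1 + (ones (wd 1 i (T 1 x)) + 1) = (i + ones (wd 1 i (T 1 x))) + 1 + 1 by ring,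
        Function.iterate_succ_apply, Function.iterate_succ_apply, T_odd h]

/-- the scale of an interval -/
theorem scale {η : ℝ} (h0 : 0 ≤ η) (h1 : η ≤ 1) (L : ℕ) (hL : 1 ≤ L) : ∃ W : ℕ, L ≤ 2 ^ W ∧
    (2 : ℝ) ^ (η * W) ≤ 2 * (L : ℝ) ^ η ∧ (W : ℝ) ≤ 3 * Real.log (L + 1) := by
  refine ⟨Nat.log 2 L + 1, (Nat.lt_pow_succ_log_self (by norm_num) L).le, ?_, ?_⟩
  · have h2 : 2 ^ (Nat.log 2 L) ≤ L := Nat.pow_log_le_self 2 (by omega)
    have h3 : (2 : ℝ) ^ (Nat.log 2 L + 1) ≤ 2 * L := by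
      rw [pow_succ, mul_comm]
      have : (2 : ℝ) ^ (Nat.log 2 L) ≤ L := by exact_mod_cast h2
      linarith
    rw [mul_comm, Real.rpow_mul (by norm_num), Real.rpow_natCast]
    calc ((2 : ℝ) ^ (Nat.log 2 L + 1)) ^ η ≤ (2 * L) ^ η :=
          Real.rpow_le_rpow (by positivity) h3 h0
      _ = 2 ^ η * (L : ℝ) ^ η := Real.mul_rpow (by norm_num) (by positivity)
      _ ≤ 2 * (L : ℝ) ^ η := by
          apply mul_le_mul_of_nonneg_right _ (by positivity)
          calc (2 : ℝ) ^ η ≤ 2 ^ (1 : ℝ) := Real.rpow_le_rpow_of_exponent_le (by norm_num) h1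
            _ = 2 := Real.rpow_one _
  · have h2 : 2 ^ (Nat.log 2 L) ≤ L := Nat.pow_log_le_self 2 (by omega)
    have hLr : (1 : ℝ) ≤ L := by exact_mod_cast hL
    have h3 : (2 : ℝ) ^ (Nat.log 2 L + 1) ≤ ((L : ℝ) + 1) ^ 2 := by
      rw [pow_succ, mul_comm]
      have : (2 : ℝ) ^ (Nat.log 2 L) ≤ L := by exact_mod_cast h2
      nlinarith
    have h4 := Real.log_le_log (by positivity) h3
    rw [Real.log_pow, Real.log_pow] at h4
    have h5 : 0 ≤ Real.log ((L : ℝ) + 1) := Real.log_nonneg (by linarith)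
    have h6 := Real.log_two_gt_d9
    have h7 : 0 ≤ ((Nat.log 2 L + 1 : ℕ) : ℝ) := Nat.cast_nonneg _
    have h8 : ((Nat.log 2 L + 1 : ℕ) : ℝ) * (2 / 3) ≤ ((Nat.log 2 L + 1 : ℕ) : ℝ) * Real.log 2 :=
      mul_le_mul_of_nonneg_left (by linarith) h7
    push_cast at h4 h8 ⊢
    linarith

/-- `x` and `y` coalesce within `K log (L + 1)` steps -/
def CC (K : ℝ) (L : ℕ) (x y : ℤ) : Prop :=
  ∃ t : ℕ, (t : ℝ) ≤ K * Real.log (L + 1) ∧ C^[t] x = C^[t] y

theorem main : ∃ η A K : ℝ, 0 < η ∧ η < beta ∧ 0 < A ∧ 0 < K ∧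
    (∀ (a : ℤ) (L : ℕ), 1 ≤ L → ∀ S : Finset ℤ, (∀ x ∈ S, a ≤ x ∧ x ≤ a + L) →
      A * (L : ℝ) ^ η < S.card → ∃ x ∈ S, ∃ y ∈ S, x ≠ y ∧ CC K L x y) ∧
    (∀ (s : ℕ) (F : ℤ → Fin s), (∀ x, F (C x) = F x) → ∀ L : ℕ, 1 ≤ L →
      ({w : Fin L → Fin s | ∃ n : ℤ, ∀ i : Fin L, w i = F (n + (i : ℕ))}.ncard : ℝ) ≤
        (s : ℝ) ^ (A * (L : ℝ) ^ η)) := by
  classical
  obtain ⟨η, A, K, hη, hηb, hA, hmain⟩ := dyadic_abs
  have hbl := beta_lt
  have hη0 : 0 < η := lt_trans (by norm_num) hη
  refine ⟨η, 4 * A, 6 * K + 1, hη0, hηb, by positivity, by positivity, ?_, ?_⟩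
  · intro a L hL S hS hcard
    by_contra hcon
    push Not at hcon
    obtain ⟨W, hW1, hW2, hW3⟩ := scale hη0.le (by linarith) L hL
    have h1 := hmain 1 le_rfl (BC K) (fun W N N' h hB => BC_mono K W N N' h hB)
      (fun W => BC_triv K W le_rfl)
      (fun W q n hqW hn hK hsm N E hN hE => BC_rec hqW hn hK hsm hN hE) W
    have hLW : (L : ℤ) ≤ 2 ^ W := by exact_mod_cast hW1
    have h2 := h1 a S (fun x hx => by
      obtain ⟨h3, h4⟩ := hS x hx
      rw [abs_le]
      constructor <;> linarith) (fun x hx y hy hne => by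
        rintro ⟨i, hi, hT, ho⟩
        refine hcon x hx y hy hne ⟨i + ones (wd 1 i x), ?_, ?_⟩
        · have h5 : ones (wd 1 i x) ≤ i := by
            have := EBQ.ones_le_length (wd 1 i x)
            rwa [EBQ.wd_length] at this
          have h6 : i + ones (wd 1 i x) ≤ 2 * (K * W) := by omega
          have h7 : ((i + ones (wd 1 i x) : ℕ) : ℝ) ≤ 2 * (K * W) := by exact_mod_cast h6
          have h8 : (K : ℝ) * W ≤ K * (3 * Real.log (L + 1)) :=
            mul_le_mul_of_nonneg_left hW3 (Nat.cast_nonneg K)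
          have h9 : 0 ≤ Real.log ((L : ℝ) + 1) := Real.log_nonneg (by
            have : (0 : ℝ) ≤ L := Nat.cast_nonneg L
            linarith)
          calc ((i + ones (wd 1 i x) : ℕ) : ℝ) ≤ 2 * (K * W) := h7
            _ ≤ 2 * (K * (3 * Real.log (L + 1))) := by linarith
            _ ≤ (6 * K + 1) * Real.log (L + 1) := by linarith
        · rw [← T_iter, ho, ← T_iter]
          exact hT)
    have h3 : A * 1 * (2 : ℝ) ^ (η * W) ≤ A * (2 * (L : ℝ) ^ η) := by
      rw [mul_one]
      exact mul_le_mul_of_nonneg_left hW2 hA.le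
    have h4 : 0 ≤ (L : ℝ) ^ η := by positivity
    have h5 : 0 ≤ A * (L : ℝ) ^ η := by positivity
    linarith
  · intro s F hF L hL
    rcases Nat.lt_or_ge s 2 with hs | hs
    · interval_cases s
      · exact (F 0).elim0
      · rw [Nat.cast_one, Real.one_rpow]
        have h1 : {w : Fin L → Fin 1 | ∃ n : ℤ, ∀ i : Fin L, w i = F (n + (i : ℕ))}.ncard ≤ 1 := by
          rw [Set.ncard_le_one (Set.toFinite _)]
          intro a _ b _
          exact Subsingleton.elim a b
        exact_mod_cast h1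
    · obtain ⟨W, hW1, hW2, hW3⟩ := scale hη0.le (by linarith) L hL
      have hT : ∀ x, F (T 1 x) = F x := by
        intro x
        rcases Int.emod_two_eq_zero_or_one x with h | h
        · rw [T_even h, hF]
        · rw [T_odd h, hF, hF]
      have hsR : (2 : ℝ) ≤ s := by exact_mod_cast hs
      set σ : ℝ := 2 * Real.log s with hσ
      have hls : Real.log 2 ≤ Real.log s := Real.log_le_log (by norm_num) hsR
      have hl2 := Real.log_two_gt_d9
      have h1 := hmain σ (by rw [hσ]; linarith) (BW F)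
        (fun W N N' h hB => le_trans (show _ ≤ N from hB) h)
        (fun W => BW_triv F W (by rw [hσ]; linarith) (by rw [Fintype.card_fin, hσ]; linarith))
        (fun W q n hqW hn _ hsm N E hN hE => BW_rec hT (by rw [hσ]; linarith)
          (by rw [Fintype.card_fin, hσ]; linarith) hqW hn hsm hN hE) W
      have hLW : (L : ℤ) ≤ 2 ^ W := by exact_mod_cast hW1
      have hpos : (0 : ℝ) < (pat F (Iw W)).card := by exact_mod_cast pat_pos F _
      have h2 : {w : Fin L → Fin s | ∃ n : ℤ, ∀ i : Fin L, w i = F (n + (i : ℕ))}.ncard ≤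
          (pat F (Iw W)).card := by
        have hmem : ∀ i : Fin L, ((i : ℕ) : ℤ) ∈ Iw W := by
          intro i
          rw [mem_Iw, abs_of_nonneg (by positivity)]
          have : ((i : ℕ) : ℤ) < L := by exact_mod_cast i.2
          linarith
        have hsub : {w : Fin L → Fin s | ∃ n : ℤ, ∀ i : Fin L, w i = F (n + (i : ℕ))} ⊆
            (((pat F (Iw W)).image (fun p => fun i : Fin L => p ⟨((i : ℕ) : ℤ), hmem i⟩) :
              Finset (Fin L → Fin s)) : Set (Fin L → Fin s)) := by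
          rintro w ⟨n, hn⟩
          rw [mem_coe, mem_image]
          refine ⟨_, pat_mem F (Iw W) n, ?_⟩
          funext i
          exact (hn i).symm
        refine (Set.ncard_le_ncard hsub (Finset.finite_toSet _)).trans ?_
        rw [Set.ncard_coe_finset]
        exact card_image_le
      have h3 : ((pat F (Iw W)).card : ℝ) ≤ (s : ℝ) ^ (4 * A * (L : ℝ) ^ η) := by
        rw [Real.rpow_def_of_pos (by linarith)]
        rw [← Real.log_le_iff_le_exp hpos]
        refine (show Real.log _ ≤ _ from h1).trans ?_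
        rw [hσ]
        calc A * (2 * Real.log s) * (2 : ℝ) ^ (η * W) ≤
            A * (2 * Real.log s) * (2 * (L : ℝ) ^ η) := by
              apply mul_le_mul_of_nonneg_left hW2
              have : 0 ≤ Real.log s := by linarith
              positivity
          _ = Real.log s * (4 * A * (L : ℝ) ^ η) := by ring
      calc ({w : Fin L → Fin s | ∃ n : ℤ, ∀ i : Fin L, w i = F (n + (i : ℕ))}.ncard : ℝ)
          ≤ (pat F (Iw W)).card := by exact_mod_cast h2
        _ ≤ _ := h3

end Pool.Agent.Q158.Col
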