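import Pool.Agent.Q158.Col.Coal

/-! The patterns of the functions which are invariant under the map. -/

set_option autoImplicit false

namespace Pool.Agent.Q158.Col

open Finset
open Pool.Agent.H319R2 (beta beta_lt)
open Pool.Agent.TH930
open Pool.Agent.TH930.EBQ (T ones wd cw)

variable {α : Type} [Fintype α]

open Classical in
/-- the patterns of `f` along the translates of `I` -/
noncomputable def pat (f : ℤ → α) (I : Finset ℤ) : Finset (I → α) :=
  univ.filter (fun w => ∃ u : ℤ, w = fun i : I => f (u + (i : ℤ)))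

/-- the window -/
noncomputable def Iw (W : ℕ) : Finset ℤ := Icc (-(2 : ℤ) ^ W) (2 ^ W)

theorem mem_Iw {W : ℕ} {i : ℤ} : i ∈ Iw W ↔ |i| ≤ 2 ^ W := by
  unfold Iw
  rw [mem_Icc, abs_le]

theorem pat_mem (f : ℤ → α) (I : Finset ℤ) (u : ℤ) : (fun i : I => f (u + (i : ℤ))) ∈ pat f I := by
  classical
  unfold pat
  rw [mem_filter]
  exact ⟨mem_univ _, u, rfl⟩

theorem pat_pos (f : ℤ → α) (I : Finset ℤ) : 0 < (pat f I).card :=
  card_pos.2 ⟨_, pat_mem f I 0⟩

theorem iter_inv {f : ℤ → α} (hf : ∀ x, f (T 1 x) = f x) (j : ℕ) (x : ℤ) :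
    f ((T 1)^[j] x) = f x := by
  induction j generalizing x with
  | zero => rfl
  | succ j ih => rw [Function.iterate_succ_apply, ih, hf]

/-- the offset depends only on the residue class -/
theorem offset_eq {n j : ℕ} (hj : j ≤ n) {u u' i : ℤ} (h : (2 : ℤ) ^ n ∣ u - u') :
    (T 1)^[j] (u + i) - (3 ^ ones (wd 1 j (u + i)) * u) / 2 ^ j =
      (T 1)^[j] (u' + i) - (3 ^ ones (wd 1 j (u + i)) * u') / 2 ^ j := by
  have hd : (2 : ℤ) ^ j ∣ u - u' := dvd_trans (pow_dvd_pow 2 hj) h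
  have hw : wd 1 j (u' + i) = wd 1 j (u + i) := by
    apply EBQ.wd_congr odd_one
    have e : u' + i - (u + i) = -(u - u') := by ring
    rw [e]
    exact (dvd_neg).2 hd
  have h1 := EBQ.iter_eq odd_one j (u + i)
  have h2 := EBQ.iter_eq odd_one j (u' + i)
  rw [hw] at h2
  set o := ones (wd 1 j (u + i)) with ho
  have hm : (3 ^ o * u) % 2 ^ j = (3 ^ o * u') % 2 ^ j := by
    apply Int.emod_eq_emod_iff_emod_sub_eq_zero.2
    apply Int.emod_eq_zero_of_dvd
    rw [← mul_sub]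
    exact Dvd.dvd.mul_left hd _
  have h3 := Int.mul_ediv_add_emod (3 ^ o * u) (2 ^ j)
  have h4 := Int.mul_ediv_add_emod (3 ^ o * u') (2 ^ j)
  have hD : (2 : ℤ) ^ j ≠ 0 := by positivity
  apply mul_left_cancel₀ hD
  linear_combination h1 - h2 - h3 + h4 + hm


/-- the key: the pattern of a translate is determined by the residue class, the patterns on the
shorter windows and the letters at the exceptional places -/
theorem pat_factor {f : ℤ → α} (hf : ∀ x, f (T 1 x) = f x) {W q n : ℕ} (hqW : q ≤ W)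
    (hn : n ≤ 2 * W) (hsm : (1 : ℤ) + 8 * W ≤ 2 ^ (W - q)) {u u' : ℤ} (h : (2 : ℤ) ^ n ∣ u - u')
    (h1 : ∀ j o : ℕ, j < 2 * W + 1 → o < 2 * W + 1 → ∀ i : ℤ, |i| ≤ 2 ^ (W - q + 1) →
      f ((3 ^ o * u) / 2 ^ j + i) = f ((3 ^ o * u') / 2 ^ j + i))
    (h2 : ∀ i : ℤ, |i| ≤ 2 ^ W → (∀ j ≤ n, 2 ^ j ≤ 2 ^ q * 3 ^ ones (wd 1 j (u + i))) →
      f (u + i) = f (u' + i)) (i : ℤ) (hi : |i| ≤ 2 ^ W) : f (u + i) = f (u' + i) := by
  by_cases hP : ∀ j ≤ n, 2 ^ j ≤ 2 ^ q * 3 ^ ones (wd 1 j (u + i))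
  · exact h2 i hi hP
  obtain ⟨j, hj, a1, a2⟩ := first_fail (Nat.one_le_two_pow) hP
  have hoff := offset_eq hj (i := i) h
  set o := ones (wd 1 j (u + i)) with ho
  have hoj : o ≤ j := by
    have := EBQ.ones_le_length (wd 1 j (u + i))
    rwa [EBQ.wd_length] at this
  have h7 := image_short (k := 1) odd_one (W := W) hqW (x := u + i) (u := u)
    (by rw [abs_one, one_mul, add_sub_cancel_left]; exact hi) ho.symm a1 a2 (by
      refine le_trans ?_ hsm
      have h7 : (j : ℤ) ≤ 2 * W := by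
        have : j ≤ 2 * W := by omega
        exact_mod_cast this
      linarith)
  rw [abs_one, one_mul] at h7
  have h3 := h1 j o (by omega) (by omega) _ h7
  rw [← iter_inv hf j (u + i), ← iter_inv hf j (u' + i)]
  have e1 : (3 ^ o * u) / 2 ^ j + ((T 1)^[j] (u + i) - (3 ^ o * u) / 2 ^ j) = (T 1)^[j] (u + i) := by
    ring
  have e2 : (3 ^ o * u') / 2 ^ j + ((T 1)^[j] (u + i) - (3 ^ o * u) / 2 ^ j) =
      (T 1)^[j] (u' + i) := by
    rw [hoff]; ring
  rw [e1, e2] at h3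
  exact h3

open Classical in
/-- the patterns of the translates by integers of the class of `r` -/
noncomputable def patR (f : ℤ → α) (I : Finset ℤ) (n : ℕ) (r : ℤ) : Finset (I → α) :=
  univ.filter (fun w => ∃ u : ℤ, (2 : ℤ) ^ n ∣ u - r ∧ w = fun i : I => f (u + (i : ℤ)))

open Classical in
theorem pat_sub (f : ℤ → α) (I : Finset ℤ) (n : ℕ) :
    pat f I ⊆ (range (2 ^ n)).biUnion (fun r => patR f I n (r : ℤ)) := by
  intro w hw
  unfold pat at hw
  rw [mem_filter] at hw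
  obtain ⟨-, u, rfl⟩ := hw
  rw [mem_biUnion]
  have hD : (0 : ℤ) < 2 ^ n := by positivity
  refine ⟨(u % 2 ^ n).toNat, ?_, ?_⟩
  · rw [mem_range]
    have h1 := Int.emod_lt_of_pos u hD
    have h2 := Int.emod_nonneg u hD.ne'
    zify
    rw [Int.toNat_of_nonneg h2]
    exact h1
  · unfold patR
    rw [mem_filter, Int.toNat_of_nonneg (Int.emod_nonneg u hD.ne')]
    exact ⟨mem_univ _, u, Int.dvd_self_sub_emod, rfl⟩

open Classical in
/-- the number of the patterns in one class -/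
theorem patR_card {f : ℤ → α} (hf : ∀ x, f (T 1 x) = f x) {W q n : ℕ} (hqW : q ≤ W)
    (hn : n ≤ 2 * W) (hsm : (1 : ℤ) + 8 * W ≤ 2 ^ (W - q)) {E : ℝ}
    (hE : ∀ (u : ℤ) (F : Finset ℤ), (∀ x ∈ F, |x - u| ≤ 2 ^ W ∧
      ∀ j ≤ n, 2 ^ j ≤ 2 ^ q * 3 ^ ones (wd 1 j x)) → (F.card : ℝ) ≤ E) (r : ℤ) :
    ∃ e : ℕ, (e : ℝ) ≤ E ∧
      (patR f (Iw W) n r).card ≤ (pat f (Iw (W - q + 1))).card ^ ((2 * W + 1) ^ 2) *
        Fintype.card α ^ e := by
  set X : Finset ℤ := (Iw W).filter (fun i => ∀ j ≤ n, 2 ^ j ≤ 2 ^ q * 3 ^ ones (wd 1 j (r + i)))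
    with hX
  refine ⟨X.card, ?_, ?_⟩
  · have hinj : Set.InjOn (fun i => r + i) (X : Set ℤ) := fun a _ b _ h => by simpa using h
    rw [← card_image_of_injOn hinj]
    apply hE r
    intro x hx
    rw [mem_image] at hx
    obtain ⟨i, hi, rfl⟩ := hx
    rw [hX, mem_filter, mem_Iw] at hi
    exact ⟨by rw [add_sub_cancel_left]; exact hi.1, hi.2⟩
  · have hch : ∀ w ∈ patR f (Iw W) n r, ∃ u : ℤ, (2 : ℤ) ^ n ∣ u - r ∧
        w = fun i : Iw W => f (u + (i : ℤ)) := by
      intro w hw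
      unfold patR at hw
      rw [mem_filter] at hw
      exact hw.2
    choose! g hg1 hg2 using hch
    set Idx := Fin (2 * W + 1) × Fin (2 * W + 1) with hIdx
    set Φ : (Iw W → α) → ((Idx → (Iw (W - q + 1) → α)) × (X → α)) := fun w =>
      (fun p => fun i => f ((3 ^ (p.2 : ℕ) * g w) / 2 ^ (p.1 : ℕ) + (i : ℤ)),
        fun i => f (g w + (i : ℤ))) with hΦ
    have hmaps : ∀ w ∈ patR f (Iw W) n r, Φ w ∈
        (Fintype.piFinset (fun _ : Idx => pat f (Iw (W - q + 1)))) ×ˢ (univ : Finset (X → α)) := by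
      intro w _
      rw [mem_product, Fintype.mem_piFinset]
      refine ⟨fun p => pat_mem f _ _, mem_univ _⟩
    have hinj : Set.InjOn Φ (patR f (Iw W) n r : Set (Iw W → α)) := by
      intro w hw w' hw' heq
      rw [hΦ] at heq
      simp only [Prod.mk.injEq] at heq
      obtain ⟨q1, q2⟩ := heq
      rw [hg2 w hw, hg2 w' hw']
      funext i
      have hi := mem_Iw.1 i.2
      have hd : (2 : ℤ) ^ n ∣ g w - g w' := by
        have := dvd_sub (hg1 w hw) (hg1 w' hw')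
        rwa [sub_sub_sub_cancel_right] at this
      apply pat_factor hf hqW hn hsm hd _ _ (i : ℤ) hi
      · intro j o hj ho i hi
        have := congrFun (congrFun q1 (⟨j, hj⟩, ⟨o, ho⟩)) ⟨i, mem_Iw.2 hi⟩
        exact this
      · intro i hi hP
        have hX' : i ∈ X := by
          rw [hX, mem_filter, mem_Iw]
          refine ⟨hi, fun j hj => ?_⟩
          have hw : wd 1 j (r + i) = wd 1 j (g w + i) := by
            apply EBQ.wd_congr odd_one
            have e : r + i - (g w + i) = -(g w - r) := by ring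
            rw [e]
            exact (dvd_neg).2 (dvd_trans (pow_dvd_pow 2 hj) (hg1 w hw))
          rw [hw]
          exact hP j hj
        exact congrFun q2 ⟨i, hX'⟩
    refine (card_le_card_of_injOn Φ hmaps hinj).trans (le_of_eq ?_)
    have hcI0 : Fintype.card (Fin (2 * W + 1) × Fin (2 * W + 1)) = (2 * W + 1) ^ 2 := by
      rw [Fintype.card_prod, Fintype.card_fin, sq]
    have hcI : Fintype.card Idx = (2 * W + 1) ^ 2 := hcI0
    rw [card_product, Fintype.card_piFinset, prod_const, card_univ, card_univ, Fintype.card_fun,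
      hcI, Fintype.card_coe]

/-- the logarithm of the number of the patterns -/
def BW (f : ℤ → α) (W : ℕ) (N : ℝ) : Prop := Real.log ((pat f (Iw W)).card : ℝ) ≤ N

theorem BW_rec {f : ℤ → α} (hf : ∀ x, f (T 1 x) = f x) {σ : ℝ} (hσ : 1 ≤ σ)
    (hs : Real.log (Fintype.card α) ≤ σ) {W q n : ℕ} (hqW : q ≤ W)
    (hn : n ≤ 2 * W) (hsm : (1 : ℤ) + 8 * W ≤ 2 ^ (W - q)) {N E : ℝ} (hN : BW f (W - q + 1) N)
    (hE : ∀ (u : ℤ) (F : Finset ℤ), (∀ x ∈ F, |x - u| ≤ 2 ^ W ∧
      ∀ j ≤ n, 2 ^ j ≤ 2 ^ q * 3 ^ ones (wd 1 j x)) → (F.card : ℝ) ≤ E) :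
    BW f W ((2 * W + 1) ^ 2 * (N + 2 * W) + σ * E) := by
  classical
  have hα : 0 < Fintype.card α := Fintype.card_pos_iff.2 ⟨f 0⟩
  have hαR : (1 : ℝ) ≤ Fintype.card α := by exact_mod_cast hα
  have hE0 : 0 ≤ E := by
    have := hE 0 ∅ (by simp)
    simpa using this
  set p' : ℝ := ((pat f (Iw (W - q + 1))).card : ℝ) with hp'
  have hp1 : 1 ≤ p' := by rw [hp']; exact_mod_cast pat_pos f _
  have hlogp : Real.log p' ≤ N := hN
  set M : ℕ := (2 * W + 1) ^ 2 with hM
  have hR : ∀ r ∈ range (2 ^ n), ((patR f (Iw W) n (r : ℤ)).card : ℝ) ≤ p' ^ M * Real.exp (σ * E) := by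
    intro r _
    obtain ⟨e, he, hc⟩ := patR_card hf hqW hn hsm hE (r : ℤ)
    have h1 : ((patR f (Iw W) n (r : ℤ)).card : ℝ) ≤ p' ^ M * (Fintype.card α : ℝ) ^ e := by
      rw [hp']; exact_mod_cast hc
    refine h1.trans (mul_le_mul_of_nonneg_left ?_ (by positivity))
    have h2 : (Fintype.card α : ℝ) ^ e = Real.exp (e * Real.log (Fintype.card α)) := by
      rw [Real.exp_nat_mul, Real.exp_log (by linarith)]
    rw [h2]
    apply Real.exp_le_exp.2
    have h3 : 0 ≤ Real.log (Fintype.card α) := Real.log_nonneg hαR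
    calc (e : ℝ) * Real.log (Fintype.card α) ≤ E * σ := mul_le_mul he hs h3 hE0
      _ = σ * E := mul_comm _ _
  have hc : ((pat f (Iw W)).card : ℝ) ≤ 2 ^ n * (p' ^ M * Real.exp (σ * E)) := by
    have h1 : ((pat f (Iw W)).card : ℝ) ≤ ∑ r ∈ range (2 ^ n), ((patR f (Iw W) n (r : ℤ)).card : ℝ) := by
      exact_mod_cast (card_le_card (pat_sub f (Iw W) n)).trans card_biUnion_le
    refine (h1.trans (sum_le_card_nsmul _ _ _ hR)).trans (le_of_eq ?_)
    rw [card_range, nsmul_eq_mul]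
    push_cast
    ring
  have hpos : (0 : ℝ) < (pat f (Iw W)).card := by exact_mod_cast pat_pos f _
  unfold BW
  refine (Real.log_le_log hpos hc).trans ?_
  rw [Real.log_mul (by positivity) (by positivity), Real.log_mul (by positivity) (by positivity),
    Real.log_exp, Real.log_pow, Real.log_pow]
  have hl2 : Real.log 2 ≤ 1 := by linarith [Real.log_two_lt_d9]
  have hl2' : 0 ≤ Real.log 2 := Real.log_nonneg (by norm_num)
  have hWn : (0 : ℝ) ≤ W := Nat.cast_nonneg W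
  have hn' : (n : ℝ) ≤ 2 * W := by exact_mod_cast hn
  have a1 : (n : ℝ) * Real.log 2 ≤ 2 * W := by
    calc (n : ℝ) * Real.log 2 ≤ (2 * W) * 1 := mul_le_mul hn' hl2 hl2' (by positivity)
      _ = 2 * W := mul_one _
  have hMr : (M : ℝ) = (2 * W + 1) ^ 2 := by rw [hM]; push_cast; ring
  have hM1 : (1 : ℝ) ≤ (2 * W + 1) ^ 2 := by nlinarith
  have a2 : (M : ℝ) * Real.log p' ≤ (2 * W + 1) ^ 2 * N := by
    rw [hMr]
    exact mul_le_mul_of_nonneg_left hlogp (by positivity)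
  have a3 : 2 * (W : ℝ) ≤ (2 * W + 1) ^ 2 * (2 * W) := le_mul_of_one_le_left (by positivity) hM1
  rw [mul_add]
  linarith

theorem BW_triv (f : ℤ → α) (W : ℕ) {σ : ℝ} (hσ : 1 ≤ σ) (hs : Real.log (Fintype.card α) ≤ σ) :
    BW f W (3 * (σ * 2 ^ W)) := by
  classical
  unfold BW
  have hα : 0 < Fintype.card α := Fintype.card_pos_iff.2 ⟨f 0⟩
  have hαR : (1 : ℝ) ≤ Fintype.card α := by exact_mod_cast hα
  have h1 : ((pat f (Iw W)).card : ℝ) ≤ (Fintype.card α : ℝ) ^ (Iw W).card := by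
    have := card_le_univ (pat f (Iw W))
    rw [Fintype.card_fun, Fintype.card_coe] at this
    exact_mod_cast this
  have hpos : (0 : ℝ) < (pat f (Iw W)).card := by exact_mod_cast pat_pos f _
  refine (Real.log_le_log hpos h1).trans ?_
  rw [Real.log_pow]
  have h2 : ((Iw W).card : ℝ) ≤ 3 * 2 ^ W := by
    have hpos : (1 : ℤ) ≤ 2 ^ W := one_le_pow₀ (by norm_num)
    have h4 : ((Iw W).card : ℤ) ≤ 3 * 2 ^ W := by
      unfold Iw
      rw [Int.card_Icc, Int.toNat_of_nonneg (by linarith)]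
      linarith
    exact_mod_cast h4
  have h3 : 0 ≤ Real.log (Fintype.card α) := Real.log_nonneg hαR
  calc ((Iw W).card : ℝ) * Real.log (Fintype.card α) ≤ (3 * 2 ^ W) * σ :=
        mul_le_mul h2 hs h3 (by positivity)
    _ = _ := by ring

end Pool.Agent.Q158.Col
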