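import Pool.Agent.TH930.EBQ.Main
import Pool.Agent.H319R2.Sparse

/-! A recursion over dyadic scales for the `3x+1` map on the integers. -/

set_option autoImplicit false

namespace Pool.Agent.Q158.Col

open Finset Filter Topology
open Pool.Agent.H319R2 (beta beta_lt)
open Pool.Agent.TH930
open Pool.Agent.TH930.EBQ (T ones wd cw Pre kap Hh)

/-- a lower bound for the exponent -/
theorem beta_gt : 12 / 13 < beta := by
  unfold beta
  have hl2 : 0 < Real.log 2 := Real.log_pos (by norm_num)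
  have hl3 : 0 < Real.log 3 := Real.log_pos (by norm_num)
  have h1 : Real.log 2 / Real.log 3 < 16 / 25 := by
    rw [div_lt_div_iff₀ hl3 (by norm_num)]
    have h : Real.log ((2 : ℝ) ^ 25) < Real.log ((3 : ℝ) ^ 16) :=
      Real.log_lt_log (by positivity) (by norm_num)
    rw [Real.log_pow, Real.log_pow] at h
    push_cast at h
    linarith
  have h0 : (2 : ℝ)⁻¹ ≤ Real.log 2 / Real.log 3 := by
    rw [inv_eq_one_div, div_le_div_iff₀ (by norm_num) hl3]
    have h : Real.log 3 < Real.log (2 ^ 2) := Real.log_lt_log (by norm_num) (by norm_num)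
    rw [Real.log_pow] at h
    push_cast at h
    linarith
  have hanti := Real.binEntropy_strictAntiOn (a := Real.log 2 / Real.log 3) (b := 16 / 25)
    ⟨h0, by linarith⟩ ⟨by norm_num, by norm_num⟩ h1
  rw [lt_div_iff₀ hl2]
  refine lt_trans ?_ hanti
  rw [Real.binEntropy_eq_negMulLog_add_negMulLog_one_sub]
  unfold Real.negMulLog
  have e1 : Real.log (16 / 25) = 4 * Real.log 2 - 2 * Real.log 5 := by
    rw [show (16 : ℝ) / 25 = 2 ^ 4 / 5 ^ 2 by norm_num, Real.log_div (by norm_num) (by norm_num),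
      Real.log_pow, Real.log_pow]; push_cast; ring
  have e2 : Real.log (1 - 16 / 25) = 2 * Real.log 3 - 2 * Real.log 5 := by
    rw [show (1 : ℝ) - 16 / 25 = 3 ^ 2 / 5 ^ 2 by norm_num, Real.log_div (by norm_num) (by norm_num),
      Real.log_pow, Real.log_pow]; push_cast; ring
  rw [e1, e2]
  have h5 : 65 / 28 * Real.log 2 ≤ Real.log 5 := by
    have h : Real.log ((2 : ℝ) ^ 65) ≤ Real.log ((5 : ℝ) ^ 28) :=
      Real.log_le_log (by positivity) (by norm_num)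
    rw [Real.log_pow, Real.log_pow] at h
    push_cast at h
    linarith
  have h3 : Real.log 3 ≤ 8 / 5 * Real.log 2 := by
    have h : Real.log ((3 : ℝ) ^ 5) ≤ Real.log ((2 : ℝ) ^ 8) :=
      Real.log_le_log (by positivity) (by norm_num)
    rw [Real.log_pow, Real.log_pow] at h
    push_cast at h
    linarith
  linarith

theorem lin_le_exp {a : ℝ} (ha : 0 < a) (L : ℝ) : ∀ᶠ N : ℕ in atTop, L * ((N : ℝ) + 1) ≤ Real.exp (a * N) := by
  have h1 : Tendsto (fun N : ℕ => (N : ℝ) ^ 1 * Real.exp (-a * N)) atTop (𝓝 0) := by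
    have := (Real.tendsto_pow_mul_exp_neg_atTop_nhds_zero 1).comp
      (Tendsto.const_mul_atTop ha tendsto_natCast_atTop_atTop)
    have h2 := this.const_mul (1 / a)
    rw [mul_zero] at h2
    refine h2.congr (fun N => ?_)
    simp only [Function.comp, pow_one]
    rw [neg_mul]
    field_simp
  have h2 : Tendsto (fun N : ℕ => Real.exp (-a * N)) atTop (𝓝 0) := by
    have := Real.tendsto_exp_neg_atTop_nhds_zero.comp
      (Tendsto.const_mul_atTop ha tendsto_natCast_atTop_atTop)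
    refine this.congr (fun N => ?_)
    simp only [Function.comp]
    rw [neg_mul]
  have h3 := (h1.const_mul L).add (h2.const_mul L)
  rw [mul_zero, add_zero] at h3
  have h4 := h3.eventually_le_const (show (0 : ℝ) < 1 by norm_num)
  filter_upwards [h4] with N hN
  rw [pow_one, ← mul_assoc, ← add_mul] at hN
  have h5 : Real.exp (-a * N) * Real.exp (a * N) = 1 := by
    rw [← Real.exp_add]; simp
  have h6 := Real.exp_pos (a * N)
  calc L * ((N : ℝ) + 1) = ((L * N + L) * Real.exp (-a * N)) * Real.exp (a * N) := by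
        rw [mul_assoc, h5]; ring
    _ ≤ 1 * Real.exp (a * N) := mul_le_mul_of_nonneg_right hN h6.le
    _ = _ := one_mul _

theorem beta_eq : beta = Hh / Real.log 2 := rfl

theorem beta_pos : 0 < beta := lt_trans (by norm_num) beta_gt

/-- a convenient exponent below `beta` -/
theorem exists_eta {c : ℝ} (hc : 0 < c) : ∃ η : ℝ, 0 ≤ η ∧ η < beta ∧
    ∀ i : ℕ, Real.exp (i * (Hh - c)) ≤ ((2 : ℝ) ^ η) ^ i := by
  have hl2 : 0 < Real.log 2 := Real.log_pos (by norm_num)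
  refine ⟨max ((Hh - c) / Real.log 2) 0, le_max_right _ _, max_lt ?_ beta_pos, fun i => ?_⟩
  · rw [beta_eq]
    exact div_lt_div_of_pos_right (by linarith) hl2
  · rw [← Real.rpow_natCast, ← Real.rpow_mul (by norm_num), Real.rpow_def_of_pos (by norm_num)]
    apply Real.exp_le_exp.2
    have h1 : (Hh - c) / Real.log 2 ≤ max ((Hh - c) / Real.log 2) 0 := le_max_left _ _
    rw [div_le_iff₀ hl2] at h1
    have h2 := mul_le_mul_of_nonneg_left h1 (Nat.cast_nonneg i : (0 : ℝ) ≤ i)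
    linarith

/-- the first failure of the prefix condition -/
theorem first_fail {k : ℤ} {Q n : ℕ} (hQ : 1 ≤ Q) {x : ℤ}
    (h : ¬ ∀ j ≤ n, 2 ^ j ≤ Q * 3 ^ ones (wd k j x)) :
    ∃ j ≤ n, Q * 3 ^ ones (wd k j x) < 2 ^ j ∧ cw (wd k j x) ≤ 4 * j * 2 ^ j := by
  classical
  have hex : ∃ j, j ≤ n ∧ Q * 3 ^ ones (wd k j x) < 2 ^ j := by
    by_contra hcon
    push Not at hcon
    exact h hcon
  obtain ⟨hj1, hj2⟩ := Nat.find_spec hex
  set j := Nat.find hex with hj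
  have hmin : ∀ i < j, 2 ^ i ≤ Q * 3 ^ ones (wd k i x) := by
    intro i hi
    have := Nat.find_min hex hi
    push Not at this
    exact this (by omega)
  refine ⟨j, hj1, hj2, ?_⟩
  have hj0 : j ≠ 0 := by
    intro h0
    rw [h0] at hj2
    simp [wd] at hj2
    omega
  obtain ⟨i, hi⟩ := Nat.exists_eq_succ_of_ne_zero hj0
  rw [Nat.succ_eq_add_one] at hi
  have hpre : Pre Q (wd k i x) := by
    intro a ha
    rw [EBQ.wd_length] at ha
    rw [EBQ.wd_take k ha]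
    exact hmin a (by omega)
  have h1 := EBQ.cw_le hpre
  rw [EBQ.wd_length] at h1
  have e : wd k j x = wd k i x ++ wd k 1 ((T k)^[i] x) := by rw [hi, EBQ.wd_append]
  have hone : ones (wd k 1 ((T k)^[i] x)) ≤ 1 := by
    have := EBQ.ones_le_length (wd k 1 ((T k)^[i] x))
    rwa [EBQ.wd_length] at this
  have hcw1 : cw (wd k 1 ((T k)^[i] x)) ≤ 1 := by
    simp only [wd]
    cases decide ((T k)^[i] x % 2 = 1) <;> simp
  have hones : ones (wd k j x) = ones (wd k i x) + ones (wd k 1 ((T k)^[i] x)) := by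
    rw [e, EBQ.ones_append]
  have h2 : Q * 3 ^ ones (wd k i x) ≤ 2 ^ j := by
    have h3 : 3 ^ ones (wd k i x) ≤ 3 ^ ones (wd k j x) :=
      Nat.pow_le_pow_right (by norm_num) (by omega)
    exact (Nat.mul_le_mul_left Q h3).trans hj2.le
  rw [e, EBQ.cw_append, EBQ.wd_length]
  have h4 : cw (wd k i x) ≤ i * 2 ^ j := by
    calc cw (wd k i x) ≤ Q * i * 3 ^ ones (wd k i x) := h1
      _ = i * (Q * 3 ^ ones (wd k i x)) := by ring
      _ ≤ i * 2 ^ j := Nat.mul_le_mul_left i h2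
  have h5 : 3 ^ ones (wd k 1 ((T k)^[i] x)) ≤ 3 := by
    calc 3 ^ ones (wd k 1 ((T k)^[i] x)) ≤ 3 ^ 1 := Nat.pow_le_pow_right (by norm_num) hone
      _ = 3 := pow_one 3
  have h6 : 2 ^ i ≤ 2 ^ j := Nat.pow_le_pow_right (by norm_num) (by omega)
  calc 3 ^ ones (wd k 1 ((T k)^[i] x)) * cw (wd k i x) + 2 ^ i * cw (wd k 1 ((T k)^[i] x))
      ≤ 3 * (i * 2 ^ j) + 2 ^ j * 1 :=
        add_le_add (Nat.mul_le_mul h5 h4) (Nat.mul_le_mul h6 hcw1)
    _ ≤ 4 * j * 2 ^ j := by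
        rw [hi]
        have : 0 ≤ 2 ^ (i + 1) := Nat.zero_le _
        nlinarith

/-- the image under a short word falls into a shorter interval -/
theorem image_short {k : ℤ} (hk : Odd k) {W q j o : ℕ} (hqW : q ≤ W) {x u : ℤ}
    (hx : |x - u| ≤ |k| * 2 ^ W)
    (ho : ones (wd k j x) = o) (hj : 2 ^ q * 3 ^ o < 2 ^ j) (hcw : cw (wd k j x) ≤ 4 * j * 2 ^ j)
    (hsm : (1 : ℤ) + 4 * j ≤ 2 ^ (W - q)) :
    |(T k)^[j] x - (3 ^ o * u) / 2 ^ j| ≤ |k| * 2 ^ (W - q + 1) := by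
  have h1 := EBQ.iter_eq hk j x
  rw [ho] at h1
  have hk0 : k ≠ 0 := by rintro rfl; simp at hk
  have hk1 : 1 ≤ |k| := Int.one_le_abs hk0
  set z := (T k)^[j] x with hz
  set c : ℤ := (cw (wd k j x) : ℤ) with hc
  have hc0 : 0 ≤ c := by rw [hc]; positivity
  have hc1 : c ≤ 4 * j * 2 ^ j := by rw [hc]; exact_mod_cast hcw
  have hD : (0 : ℤ) < 2 ^ j := by positivity
  set u' : ℤ := (3 ^ o * u) / 2 ^ j with hu'
  have h2 : 2 ^ j * u' = 3 ^ o * u - (3 ^ o * u) % 2 ^ j := by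
    have := Int.mul_ediv_add_emod (3 ^ o * u) (2 ^ j)
    rw [← hu'] at this
    linarith
  have h3 : 0 ≤ (3 ^ o * u) % 2 ^ j := Int.emod_nonneg _ hD.ne'
  have h4 : (3 ^ o * u) % 2 ^ j < 2 ^ j := Int.emod_lt_of_pos _ hD
  have h5 : 2 ^ j * (z - u') = 3 ^ o * (x - u) + (3 ^ o * u) % 2 ^ j + k * c := by
    linear_combination h1 - h2
  have h6 : (2 : ℤ) ^ j * |z - u'| ≤ 2 ^ j * (|k| * 2 ^ (W - q + 1)) := by
    calc (2 : ℤ) ^ j * |z - u'| = |2 ^ j * (z - u')| := by rw [abs_mul, abs_of_pos hD]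
      _ = |3 ^ o * (x - u) + (3 ^ o * u) % 2 ^ j + k * c| := by rw [h5]
      _ ≤ |3 ^ o * (x - u)| + |(3 ^ o * u) % 2 ^ j| + |k * c| := abs_add_three _ _ _
      _ ≤ 3 ^ o * (|k| * 2 ^ W) + |k| * 2 ^ j + |k| * (4 * j * 2 ^ j) := by
          rw [abs_mul, abs_mul, abs_of_nonneg h3, abs_of_nonneg hc0,
            abs_of_pos (show (0 : ℤ) < 3 ^ o by positivity)]
          have a1 : (3 : ℤ) ^ o * |x - u| ≤ 3 ^ o * (|k| * 2 ^ W) :=
            mul_le_mul_of_nonneg_left hx (by positivity)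
          have a2 : |k| * c ≤ |k| * (4 * j * 2 ^ j) := mul_le_mul_of_nonneg_left hc1 (abs_nonneg _)
          have a3 : (2 : ℤ) ^ j ≤ |k| * 2 ^ j := le_mul_of_one_le_left hD.le hk1
          linarith
      _ ≤ 2 ^ j * (|k| * 2 ^ (W - q)) + 2 ^ j * (|k| * (1 + 4 * j)) := by
          have a1 : (2 : ℤ) ^ q * 3 ^ o ≤ 2 ^ j := by exact_mod_cast hj.le
          have a2 : (3 : ℤ) ^ o * (|k| * 2 ^ W) = (2 ^ q * 3 ^ o) * (|k| * 2 ^ (W - q)) := by
            have : (2 : ℤ) ^ W = 2 ^ q * 2 ^ (W - q) := by rw [← pow_add]; congr 1; omega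
            rw [this]; ring
          have a3 : (2 ^ q * 3 ^ o) * (|k| * 2 ^ (W - q)) ≤ (2 : ℤ) ^ j * (|k| * 2 ^ (W - q)) :=
            mul_le_mul_of_nonneg_right a1 (by positivity)
          rw [a2]
          linarith
      _ ≤ 2 ^ j * (|k| * 2 ^ (W - q)) + 2 ^ j * (|k| * 2 ^ (W - q)) := by
          have := mul_le_mul_of_nonneg_left (mul_le_mul_of_nonneg_left hsm (abs_nonneg k)) hD.le
          linarith
      _ = 2 ^ j * (|k| * 2 ^ (W - q + 1)) := by rw [pow_succ]; ring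
  exact le_of_mul_le_mul_left h6 hD

/-- the recursion over the dyadic scales, in abstract form -/
theorem dyadic_abs : ∃ η A : ℝ, ∃ K : ℕ, 12 / 13 < η ∧ η < beta ∧ 0 < A ∧
    ∀ σ : ℝ, 1 ≤ σ → ∀ B : ℕ → ℝ → Prop, (∀ W N N', N ≤ N' → B W N → B W N') →
    (∀ W : ℕ, B W (3 * (σ * 2 ^ W))) →
    (∀ W q n : ℕ, q ≤ W → n ≤ 2 * W → 2 * W ≤ K * (q - 1) → (1 : ℤ) + 8 * W ≤ 2 ^ (W - q) →
      ∀ N E : ℝ, B (W - q + 1) N → (∀ (u : ℤ) (F : Finset ℤ), (∀ x ∈ F, |x - u| ≤ 2 ^ W ∧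
        ∀ j ≤ n, 2 ^ j ≤ 2 ^ q * 3 ^ ones (wd 1 j x)) → (F.card : ℝ) ≤ E) →
      B W ((2 * W + 1) ^ 2 * (N + 2 * W) + σ * E)) →
    ∀ W : ℕ, B W (A * σ * (2 : ℝ) ^ (η * W)) := by
  classical
  obtain ⟨τ, c, C, μ0, hτ0, hτ1, hc, hC, hμ0, hμ1, hmain⟩ := EBQ.count_main
  obtain ⟨η0, hη0, hη1, hη0e⟩ := exists_eta hc
  have hbg := beta_gt
  have hbl := beta_lt
  obtain ⟨η, hη2, hηb⟩ := exists_between (max_lt hη1 hbg)
  have hη3 : η0 < η := (le_max_left _ _).trans_lt hη2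
  have hη4 : 12 / 13 < η := (le_max_right _ _).trans_lt hη2
  have hηp : 0 < η := by linarith
  have hl2 : 0 < Real.log 2 := Real.log_pos (by norm_num)
  have hl2a := Real.log_two_gt_d9
  have hl2b := Real.log_two_lt_d9
  -- parameters
  set δ : ℝ := min (1 / 4) μ0 with hδ
  have hδ0 : 0 < δ := lt_min (by norm_num) hμ0
  have hδ4 : δ ≤ 1 / 4 := min_le_left _ _
  have hδμ : δ ≤ μ0 := min_le_right _ _
  -- large `W`
  have e1 := lin_le_exp (a := 1 / 16) (by norm_num) 9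
  have e2 : ∀ᶠ W : ℕ in atTop, (3 : ℝ) / δ ≤ (W : ℝ) :=
    tendsto_natCast_atTop_atTop.eventually_ge_atTop _
  have e3 : ∀ᶠ W : ℕ in atTop, 8 * (2 * (W : ℝ) + 2) ^ 3 ≤ Real.exp (η * δ * Real.log 2 / 2 * W) := by
    have h1 := lin_le_exp (a := η * δ * Real.log 2 / 6) (by positivity) 4
    filter_upwards [h1] with W hW
    have hW0 : (0 : ℝ) ≤ W := Nat.cast_nonneg W
    calc 8 * (2 * (W : ℝ) + 2) ^ 3 = (4 * ((W : ℝ) + 1)) ^ 3 := by ring
      _ ≤ (Real.exp (η * δ * Real.log 2 / 6 * W)) ^ 3 := pow_le_pow_left₀ (by positivity) hW 3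
      _ = _ := by rw [← Real.exp_nat_mul]; congr 1; push_cast; ring
  have e4 : ∀ᶠ W : ℕ in atTop, (2 : ℝ) * (2 : ℝ) ^ (2 * η) ≤ Real.exp (η * δ * Real.log 2 / 2 * W) := by
    have h1 : Tendsto (fun W : ℕ => Real.exp (η * δ * Real.log 2 / 2 * W)) atTop atTop :=
      Real.tendsto_exp_atTop.comp
        (Tendsto.const_mul_atTop (by positivity) tendsto_natCast_atTop_atTop)
    exact h1.eventually_ge_atTop _
  obtain ⟨W0, hW0⟩ := eventually_atTop.1 (((e1.and e2).and e3).and e4)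
  set D0 : ℝ := 4 * C + 3 * 2 ^ W0 + 3 with hD0
  have hD0p : 0 < D0 := by positivity
  refine ⟨η, D0, ⌈6 / δ⌉₊, hη4, hηb, hD0p, ?_⟩
  intro κ hk1 B hmono htriv hrec0
  set D : ℝ := D0 * κ with hD
  have hDp : 0 < D := by positivity
  have hD0' : D0 ≤ D := le_mul_of_one_le_right hD0p.le hk1
  intro W
  induction W using Nat.strong_induction_on with
  | _ W ih =>
  have hWn : (0 : ℝ) ≤ W := Nat.cast_nonneg W
  have h2η : (1 : ℝ) ≤ (2 : ℝ) ^ (η * W) := Real.one_le_rpow (by norm_num) (by positivity)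
  rcases lt_or_ge W W0 with hsmall | hbig
  · -- small `W`
    refine hmono W _ _ ?_ (htriv W)
    have h1 : (2 : ℝ) ^ W ≤ 2 ^ W0 := pow_le_pow_right₀ (by norm_num) hsmall.le
    calc 3 * (κ * 2 ^ W) ≤ 3 * (κ * 2 ^ W0) := by
          apply mul_le_mul_of_nonneg_left _ (by norm_num)
          exact mul_le_mul_of_nonneg_left h1 (by linarith)
      _ ≤ D := by
          rw [hD, hD0]
          have a1 : 0 ≤ C * κ := by positivity
          linarith
      _ ≤ D * (2 : ℝ) ^ (η * W) := le_mul_of_one_le_right hDp.le h2η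
  · obtain ⟨⟨⟨h1, h2⟩, h3⟩, h4⟩ := hW0 W hbig
    set q : ℕ := ⌊δ * (W : ℝ)⌋₊ with hq
    have hq1 : (q : ℝ) ≤ δ * W := Nat.floor_le (by positivity)
    have hq2 : δ * W < (q : ℝ) + 1 := Nat.lt_floor_add_one _
    have hδW : 3 ≤ δ * W := by rw [div_le_iff₀ hδ0] at h2; linarith
    have hq3 : 2 ≤ q := by
      have : (2 : ℝ) < (q : ℝ) := by linarith
      exact_mod_cast this.le
    have hqW4 : (q : ℝ) ≤ 1 / 4 * W := hq1.trans (mul_le_mul_of_nonneg_right hδ4 hWn)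
    have hqW : q ≤ W := by
      have : (q : ℝ) ≤ W := by linarith
      exact_mod_cast this
    have hih := ih (W - q + 1) (by omega)
    have hsm : (1 : ℤ) + 8 * (W : ℤ) ≤ 2 ^ (W - q) := by
      have a1 : (1 : ℝ) + 8 * W ≤ (2 : ℝ) ^ (W - q) := by
        have a2 : (1 : ℝ) + 8 * W ≤ 9 * ((W : ℝ) + 1) := by linarith
        have a4 : Real.exp (1 / 16 * W) ≤ Real.exp (Real.log 2 * (W - q : ℕ)) := by
          apply Real.exp_le_exp.2
          rw [Nat.cast_sub hqW]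
          have a6 : (1 / 2 : ℝ) * (3 / 4 * W) ≤ Real.log 2 * (W - q) :=
            mul_le_mul (by linarith) (by linarith) (by positivity) (by linarith)
          linarith
        have a5 : Real.exp (Real.log 2 * (W - q : ℕ)) = (2 : ℝ) ^ (W - q) := by
          rw [mul_comm, Real.exp_nat_mul, Real.exp_log (by norm_num)]
        rw [← a5]
        exact a2.trans (h1.trans a4)
      exact_mod_cast a1
    have hflτ : ⌊τ * (W : ℝ)⌋₊ ≤ W := by
      apply Nat.floor_le_of_le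
      calc τ * (W : ℝ) ≤ 1 * W := mul_le_mul_of_nonneg_right (by linarith) hWn
        _ = W := one_mul _
    have hQexp : (((2 ^ q : ℕ)) : ℝ) ≤ Real.exp (μ0 * W) := by
      push_cast
      rw [← Real.rpow_natCast, Real.rpow_def_of_pos (by norm_num)]
      apply Real.exp_le_exp.2
      have a1 : Real.log 2 * (q : ℝ) ≤ 1 * (δ * W) :=
        mul_le_mul (by linarith) hq1 (Nat.cast_nonneg _) (by norm_num)
      have a2 : δ * W ≤ μ0 * W := mul_le_mul_of_nonneg_right hδμ hWn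
      linarith
    have hqd : 2 * W ≤ ⌈6 / δ⌉₊ * (q - 1) := by
      have hK1 : 6 / δ ≤ (⌈6 / δ⌉₊ : ℝ) := Nat.le_ceil _
      have h5 : (2 : ℝ) * W ≤ (⌈6 / δ⌉₊ : ℝ) * ((q - 1 : ℕ) : ℝ) := by
        rw [Nat.cast_sub (by omega : 1 ≤ q), Nat.cast_one]
        have h6 : δ * W / 3 ≤ (q : ℝ) - 1 := by linarith
        calc (2 : ℝ) * W = 6 / δ * (δ * W / 3) := by field_simp; ring
          _ ≤ (⌈6 / δ⌉₊ : ℝ) * ((q : ℝ) - 1) :=
            mul_le_mul hK1 h6 (by positivity) (Nat.cast_nonneg _)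
      exact_mod_cast h5
    have hrec := hrec0 W q (W + ⌊τ * (W : ℝ)⌋₊) hqW (by omega) hqd hsm
      (D * (2 : ℝ) ^ (η * (W - q + 1 : ℕ))) (C * Real.exp (W * (Hh - c)))
      hih (fun u F hF => hmain 1 odd_one W (2 ^ q) Nat.one_le_two_pow hQexp
        (by rw [Int.cast_one, abs_one]; apply Real.one_le_exp; positivity) u F hF)
    refine hmono W _ _ ?_ hrec
    -- the arithmetic
    have k1 : κ * (C * Real.exp (W * (Hh - c))) ≤ D / 4 * (2 : ℝ) ^ (η * W) := by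
      have a1 := hη0e W
      have a2 : ((2 : ℝ) ^ η0) ^ W ≤ (2 : ℝ) ^ (η * W) := by
        rw [← Real.rpow_natCast, ← Real.rpow_mul (by norm_num)]
        apply Real.rpow_le_rpow_of_exponent_le (by norm_num)
        exact mul_le_mul_of_nonneg_right hη3.le hWn
      have a3 : κ * C ≤ D / 4 := by
        rw [hD, hD0]
        have : 0 ≤ (3 : ℝ) * 2 ^ W0 * κ := by positivity
        linarith
      rw [← mul_assoc]
      exact mul_le_mul a3 (a1.trans a2) (Real.exp_pos _).le (by positivity)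
    set X : ℝ := Real.exp (η * δ * Real.log 2 / 2 * W) with hX
    have hX0 : 0 < X := Real.exp_pos _
    have k2 : (2 : ℝ) ^ (η * (W - q + 1 : ℕ)) * (X * X) ≤ (2 : ℝ) ^ (2 * η) * (2 : ℝ) ^ (η * W) := by
      have a1 : X * X = (2 : ℝ) ^ (η * δ * W) := by
        rw [hX, ← Real.exp_add, Real.rpow_def_of_pos (by norm_num)]; congr 1; ring
      rw [a1, ← Real.rpow_add (by norm_num), ← Real.rpow_add (by norm_num)]
      apply Real.rpow_le_rpow_of_exponent_le (by norm_num)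
      push_cast
      rw [Nat.cast_sub hqW]
      have a2 : η * (δ * W) ≤ η * ((q : ℝ) + 1) := mul_le_mul_of_nonneg_left hq2.le hηp.le
      linarith
    have k3 : (2 * (W : ℝ) + 1) ^ 2 * (D * (2 : ℝ) ^ (η * (W - q + 1 : ℕ))) ≤
        D / 4 * (2 : ℝ) ^ (η * W) := by
      have hXX : 0 < X * X := by positivity
      have a0 : (2 * (W : ℝ) + 1) ^ 2 ≤ (2 * (W : ℝ) + 2) ^ 3 := by nlinarith
      have a1 : 8 * (2 * (W : ℝ) + 1) ^ 2 ≤ X := by linarith
      have a2 : 8 * (2 * (W : ℝ) + 1) ^ 2 * (2 * (2 : ℝ) ^ (2 * η)) ≤ X * X :=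
        mul_le_mul a1 h4 (by positivity) hX0.le
      have a3 : ((2 * (W : ℝ) + 1) ^ 2 * (D * (2 : ℝ) ^ (η * (W - q + 1 : ℕ)))) * (X * X) ≤
          (D / 4 * (2 : ℝ) ^ (η * W)) * (X * X) := by
        calc ((2 * (W : ℝ) + 1) ^ 2 * (D * (2 : ℝ) ^ (η * (W - q + 1 : ℕ)))) * (X * X)
            = (2 * (W : ℝ) + 1) ^ 2 * D * ((2 : ℝ) ^ (η * (W - q + 1 : ℕ)) * (X * X)) := by ring
          _ ≤ (2 * (W : ℝ) + 1) ^ 2 * D * ((2 : ℝ) ^ (2 * η) * (2 : ℝ) ^ (η * W)) :=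
              mul_le_mul_of_nonneg_left k2 (by positivity)
          _ = D / 16 * (2 : ℝ) ^ (η * W) *
              (8 * (2 * (W : ℝ) + 1) ^ 2 * (2 * (2 : ℝ) ^ (2 * η))) := by ring
          _ ≤ D / 16 * (2 : ℝ) ^ (η * W) * (X * X) := mul_le_mul_of_nonneg_left a2 (by positivity)
          _ ≤ (D / 4 * (2 : ℝ) ^ (η * W)) * (X * X) := by
              have : 0 ≤ D * (2 : ℝ) ^ (η * W) * (X * X) := by positivity
              linarith
      exact le_of_mul_le_mul_right a3 hXX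
    have k4 : (2 * (W : ℝ) + 1) ^ 2 * (2 * W) ≤ D / 4 * (2 : ℝ) ^ (η * W) := by
      have a1 : (2 * (W : ℝ) + 1) ^ 2 * (2 * W) ≤ (2 * (W : ℝ) + 2) ^ 3 := by nlinarith
      have a2 : X ≤ (2 : ℝ) ^ (η * W) := by
        rw [hX, Real.rpow_def_of_pos (by norm_num)]
        apply Real.exp_le_exp.2
        have : η * Real.log 2 * W * (δ / 2) ≤ η * Real.log 2 * W * 1 :=
          mul_le_mul_of_nonneg_left (by linarith) (by positivity)
        linarith
      have a3 : (1 : ℝ) / 8 ≤ D / 4 := by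
        have : 0 ≤ (3 : ℝ) * 2 ^ W0 := by positivity
        linarith
      calc (2 * (W : ℝ) + 1) ^ 2 * (2 * W) ≤ 1 / 8 * X := by linarith
        _ ≤ D / 4 * (2 : ℝ) ^ (η * W) := mul_le_mul a3 a2 hX0.le (by positivity)
    have k5 : 0 ≤ D * (2 : ℝ) ^ (η * W) := by positivity
    have k6 : (2 * (W : ℝ) + 1) ^ 2 * (D * (2 : ℝ) ^ (η * (W - q + 1 : ℕ)) + 2 * W) +
        κ * (C * Real.exp (W * (Hh - c))) ≤ D * (2 : ℝ) ^ (η * W) := by
      rw [mul_add]
      linarith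
    exact k6

end Pool.Agent.Q158.Col
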